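import Mathlib
import Pool.Agent.X225.Tree

/-!
# Finitely generated isotypic algebras need not be isomorphic
-/

namespace Pool.Agent.Results.MP_c850b7_lc.IsotypicNotIsomorphic

open FirstOrder FirstOrder.Language Pool.Agent.X225.Tree

/-- There are an algebraic signature (operation symbols only) and two one-generated algebras `H₁`,
`H₂` of this signature which are isotypic but not isomorphic.  (Both lie in the variety of all
algebras of the signature.) -/
theorem result :
    ∃ (L : FirstOrder.Language.{0, 0}) (_ : L.IsAlgebraic) (H₁ H₂ : Type)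
      (_ : L.Structure H₁) (_ : L.Structure H₂),
      (∃ a : H₁, Substructure.closure L {a} = ⊤) ∧ (∃ a : H₂, Substructure.closure L {a} = ⊤) ∧
        Isotypic L H₁ H₂ ∧ ¬ Nonempty (H₁ ≃[L] H₂) := by
  have key : ∀ n : ℤ, ∃ a : T n, Substructure.closure LT {a} = ⊤ := by
    intro n
    refine ⟨⟨b n, b_mem_T.mpr le_rfl⟩, ?_⟩
    apply Substructure.map_injective_of_injective (f := (T n).subtype.toHom)
      (T n).subtype.injective
    have h1 : (⊤ : LT.Substructure (T n)).map (T n).subtype.toHom = T n := by
      ext x
      simp only [Substructure.mem_map, Substructure.mem_top, true_and]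
      constructor
      · rintro ⟨y, rfl⟩
        exact y.2
      · intro hx
        exact ⟨⟨x, hx⟩, rfl⟩
    rw [h1, ← Substructure.closure_image]
    have h2 : (T n).subtype.toHom '' {(⟨b n, b_mem_T.mpr le_rfl⟩ : T n)} = {b n} := by
      rw [Set.image_singleton]
      rfl
    rw [h2, ← T_eq_closure]
  exact ⟨LT, fun n => inferInstance, T 0, T 1, inferInstance, inferInstance, key 0, key 1,
    isotypic_T_T, not_iso⟩

end Pool.Agent.Results.MP_c850b7_lc.IsotypicNotIsomorphic
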